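import Mathlib
import Pool.Agent.H94.AC.Targets
import Pool.Agent.H32.IC.FCE

/-!
# Module FCL: the normal flux through a flat piece of the crack is small in the mean
-/

open MeasureTheory Set Filter Topology Metric
open scoped ENNReal NNReal ContDiff RealInnerProductSpace

namespace Pool.Agent.H94.AC

open Pool.Agent.H94.IC
open Pool.Agent.H32.IC.FCE Pool.Agent.H32.IC

theorem fcl (hRG2 : T_RG2) : T_FCL := by
  intro Ω S h Ψ p hΩ hΩb hSc hW hp hp2 hsub hsm hsms hfl
  set y0 : E := Ψ p with hy0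
  set Φ : OpenPartialHomeomorph E E := Ψ.symm with hΦ
  have hΦs : Φ.source = Ψ.target := rfl
  have hΦt : Φ.target = Ψ.source := rfl
  have hΦsymm : ∀ x, Φ.symm x = Ψ x := fun x => rfl
  have hy0t : y0 ∈ Ψ.target := Ψ.map_source hp
  obtain ⟨ε, hε, hεb⟩ := Metric.isOpen_iff.1 Ψ.open_target y0 hy0t
  set r0 : ℝ := ε / 8 with hr0
  have hr0p : 0 < r0 := by positivity
  have hcb : closedBall y0 (4 * r0) ⊆ Ψ.target := by
    intro y hy
    refine hεb ?_
    rw [mem_closedBall] at hy
    rw [mem_ball]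
    rw [hr0] at hy
    linarith
  have hO : IsOpen (Ω \ S) := hΩ.sdiff hSc
  -- the charts
  have hch : ∀ b : Bool, Ch Ω S (PS Φ b y0) r0 := by
    intro b
    have hmem : ∀ y : E, y ∈ closedBall (0 : E) (4 * r0) → eT b y + y0 ∈ closedBall y0 (4 * r0) := by
      intro y hy
      rw [mem_closedBall_zero_iff] at hy
      rw [mem_closedBall, dist_eq_norm]
      simpa using hy
    have ha : ContDiff ℝ ∞ (fun y => eT b y + y0) := (eT b).contDiff.add contDiff_const
    have hb : ContDiff ℝ ∞ (fun y => (eT b).symm (y - y0)) :=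
      (eT b).symm.contDiff.comp (contDiff_id.sub contDiff_const)
    refine ⟨hr0p, fun y hy => hcb (hmem y hy), hsub, ?_, ?_, ?_⟩
    · exact hsms.comp ha.contDiffOn (fun y hy => hy)
    · have h1 : ContDiffOn ℝ ∞ (fun z => (eT b).symm (Ψ z - y0)) Ψ.source :=
        hb.comp_contDiffOn hsm
      exact h1.congr (fun z _ => PS_symm Φ b y0 z)
    · intro y hy
      have hy' := hmem y (ball_subset_closedBall hy)
      have e1 : (eT b y + y0) 2 = sg b * y 2 := by
        have : (eT b y + y0) 2 = (eT b y) 2 + y0 2 := rfl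
        rw [this, eT_two, hp2, add_zero]
      have hs : sg b ≠ 0 := by unfold sg; cases b <;> simp
      have h1 : eT b y + y0 ∈ Ψ.target := hcb hy'
      rw [PS_apply, hfl _ (Ψ.map_target h1)]
      rw [Ψ.right_inv h1, e1]
      exact ⟨fun h2 => (mul_eq_zero.1 h2).resolve_left hs, fun h2 => by rw [h2, mul_zero]⟩
  have hup : ∀ b : Bool, Tendsto (fun d : ℝ => d⁻¹ * ∫ x in Φ '' (DD b y0 (r0 / 2) d),
      |⟪gr h x, gr (fun z => (Ψ z) 2) x⟫|) (𝓝[>] 0) (𝓝 0) := by
    intro b
    have h2 := up hRG2 hΩ hO (hch b) hW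
    refine h2.congr (fun d => ?_)
    rw [img_DD b y0 hp2]
    congr 1
    refine integral_congr_ae (ae_of_all _ (fun x => ?_))
    exact gr_sg b y0 hp2 x
  -- the radius
  have hcont : ContinuousAt Ψ p := Ψ.continuousAt hp
  obtain ⟨r1, hr1, hr1b⟩ := Metric.isOpen_iff.1 Ψ.open_source p hp
  obtain ⟨r2, hr2, hr2b⟩ := Metric.continuousAt_iff.1 hcont (r0 / 2) (by positivity)
  set r : ℝ := min r1 r2 / 2 with hr
  have hrp : 0 < r := by positivity
  have hrr1 : r < r1 := by
    have := min_le_left r1 r2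
    rw [hr]; linarith
  have hrr2 : r < r2 := by
    have := min_le_right r1 r2
    rw [hr]; linarith
  have hcs : closedBall p r ⊆ Ψ.source := (closedBall_subset_ball hrr1).trans hr1b
  have hbs : ball p r ⊆ Ψ.source := ball_subset_closedBall.trans hcs
  have hΨ2 : ContDiffOn ℝ ∞ (fun z => (Ψ z) 2) Ψ.source :=
    (EuclideanSpace.proj (2 : Fin 3) : E →L[ℝ] ℝ).contDiff.comp_contDiffOn hsm
  have hgc : ContinuousOn (gr (fun z => (Ψ z) 2)) (closedBall p r) :=
    (gr_contOn Ψ.open_source hΨ2).mono hcs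
  obtain ⟨C, hC⟩ := (isCompact_closedBall p r).exists_bound_of_continuousOn hgc
  have hfin : IsFiniteMeasure ((volume : Measure E).restrict Ω) := Pool.Agent.H29.IC.finite_restrict hΩb
  have hint : IntegrableOn (fun x => ⟪gr h x, gr (fun z => (Ψ z) 2) x⟫) (ball p r) := by
    have h1 : IntegrableOn (gr h) (ball p r) :=
      IntegrableOn.mono_set (Pool.Agent.H29.IC.int_of_L2 hW.g2) (hbs.trans hsub)
    have hm : AEStronglyMeasurable (fun x => ⟪gr h x, gr (fun z => (Ψ z) 2) x⟫)
        (volume.restrict (ball p r)) :=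
      h1.aestronglyMeasurable.inner
        ((hgc.mono ball_subset_closedBall).aestronglyMeasurable isOpen_ball.measurableSet)
    refine Integrable.mono' (h1.norm.mul_const C) hm ?_
    filter_upwards [ae_restrict_mem isOpen_ball.measurableSet] with x hx
    refine (norm_inner_le_norm _ _).trans ?_
    exact mul_le_mul_of_nonneg_left (hC x (ball_subset_closedBall hx)) (norm_nonneg _)
  refine ⟨r, hrp, hcs, hint, ?_⟩
  -- integrability on the images
  have hintI : ∀ b d, IntegrableOn (fun x => |⟪gr h x, gr (fun z => (Ψ z) 2) x⟫|)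
      (Φ '' (DD b y0 (r0 / 2) d)) := by
    intro b d
    have hKc : IsCompact (Φ '' closedBall y0 (4 * r0)) :=
      (isCompact_closedBall _ _).image_of_continuousOn (Φ.continuousOn.mono hcb)
    have hKs : Φ '' closedBall y0 (4 * r0) ⊆ Ψ.source := by
      rintro _ ⟨y, hy, rfl⟩
      exact Ψ.map_target (hcb hy)
    obtain ⟨C', hC'⟩ := hKc.exists_bound_of_continuousOn ((gr_contOn Ψ.open_source hΨ2).mono hKs)
    have h1 : IntegrableOn (gr h) (Φ '' closedBall y0 (4 * r0)) :=
      IntegrableOn.mono_set (Pool.Agent.H29.IC.int_of_L2 hW.g2) (hKs.trans hsub)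
    have hm : AEStronglyMeasurable (fun x => ⟪gr h x, gr (fun z => (Ψ z) 2) x⟫)
        (volume.restrict (Φ '' closedBall y0 (4 * r0))) :=
      h1.aestronglyMeasurable.inner
        (((gr_contOn Ψ.open_source hΨ2).mono hKs).aestronglyMeasurable hKc.isClosed.measurableSet)
    have h2 : IntegrableOn (fun x => |⟪gr h x, gr (fun z => (Ψ z) 2) x⟫|) (Φ '' closedBall y0 (4 * r0)) := by
      refine Integrable.mono' (h1.norm.mul_const C') hm.norm ?_
      filter_upwards [ae_restrict_mem hKc.isClosed.measurableSet] with x hx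
      rw [Real.norm_eq_abs, abs_abs]
      refine (abs_real_inner_le_norm _ _).trans ?_
      exact mul_le_mul_of_nonneg_left (hC' x hx) (norm_nonneg _)
    refine h2.mono_set (image_mono ?_)
    rintro y ⟨hy, _⟩
    rw [mem_closedBall, dist_eq_norm]
    linarith
  have hsum : Tendsto (fun d : ℝ => (d⁻¹ * ∫ x in Φ '' (DD true y0 (r0 / 2) d),
      |⟪gr h x, gr (fun z => (Ψ z) 2) x⟫|) + d⁻¹ * ∫ x in Φ '' (DD false y0 (r0 / 2) d),
      |⟪gr h x, gr (fun z => (Ψ z) 2) x⟫|) (𝓝[>] 0) (𝓝 0) := by
    simpa using (hup true).add (hup false)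
  refine tendsto_of_tendsto_of_tendsto_of_le_of_le' tendsto_const_nhds hsum ?_ ?_
  · filter_upwards [self_mem_nhdsWithin] with d hd
    have hd' : 0 < d := hd
    exact mul_nonneg (by positivity) (integral_nonneg (fun x => abs_nonneg _))
  · filter_upwards [self_mem_nhdsWithin] with d hd
    have hd' : 0 < d := hd
    rw [← mul_add]
    refine mul_le_mul_of_nonneg_left ?_ (by positivity)
    have hss : ball p r ∩ {x | |(Ψ x) 2| < d ∧ (Ψ x) 2 ≠ 0}
        ⊆ Φ '' (DD true y0 (r0 / 2) d) ∪ Φ '' (DD false y0 (r0 / 2) d) := by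
      rintro x ⟨hx, hx1, hx2⟩
      have hxs : x ∈ Ψ.source := hbs hx
      have hxd : ‖Ψ x - y0‖ < r0 / 2 := by
        rw [← dist_eq_norm]
        refine hr2b ?_
        rw [mem_ball] at hx
        linarith
      rcases lt_or_gt_of_ne hx2 with h5 | h5
      · left
        refine ⟨Ψ x, ⟨hxd, ?_, ?_⟩, Ψ.left_inv hxs⟩
        · simp only [sg, if_true]; linarith
        · simp only [sg, if_true]
          rw [abs_of_neg h5] at hx1
          linarith
      · right
        refine ⟨Ψ x, ⟨hxd, ?_, ?_⟩, Ψ.left_inv hxs⟩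
        · simp only [sg, Bool.false_eq_true, if_false]; linarith
        · simp only [sg, Bool.false_eq_true, if_false]
          rw [abs_of_pos h5] at hx1
          linarith
    have hle : (volume : Measure E).restrict (ball p r ∩ {x | |(Ψ x) 2| < d ∧ (Ψ x) 2 ≠ 0})
        ≤ volume.restrict (Φ '' (DD true y0 (r0 / 2) d)) + volume.restrict (Φ '' (DD false y0 (r0 / 2) d)) :=
      (Measure.restrict_mono hss le_rfl).trans (Measure.restrict_union_le _ _)
    have h7 := integral_mono_measure hle (f := fun x => |⟪gr h x, gr (fun z => (Ψ z) 2) x⟫|)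
      (ae_of_all _ (fun x => abs_nonneg _)) (Integrable.add_measure (hintI true d) (hintI false d))
    rw [integral_add_measure (hintI true d) (hintI false d)] at h7
    exact h7

end Pool.Agent.H94.AC
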