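import Mathlib
import Pool.Agent.H94.AC.Targets
import Pool.Agent.H29.IC.Tools

/-!
# Module NJS: without jump the solution extends harmonically
-/

open MeasureTheory Set Filter Topology Metric
open scoped ENNReal NNReal ContDiff RealInnerProductSpace

namespace Pool.Agent.H94.AC

open Pool.Agent.H94.IC
open Pool.Agent.H29.IC (inner_gr norm_gr gr_apply contDiff_gr dv_gr)

theorem njs (hWYL : T_WYL) : T_NJS := by
  intro Ω S h p hΩ hΩb hSc hS0 hW hN
  obtain ⟨r, hr, hb, hX⟩ := hN
  refine ⟨r, hr, hb, ?_⟩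
  have hl2 : MemLp h 2 (volume.restrict (ball p r)) := hW.l2.mono_measure (Measure.restrict_mono hb le_rfl)
  have key : ∀ φ : E → ℝ, ContDiff ℝ ∞ φ → HasCompactSupport φ → tsupport φ ⊆ ball p r →
      ∫ x in ball p r, h x * ∑ k : Fin 3, pd k (pd k φ) x = 0 := by
    intro φ hφ hφc hφt
    have hlap : ∀ x, dv (gr φ) x = ∑ k : Fin 3, pd k (pd k φ) x := fun x =>
      dv_gr ((hφ.of_le (by norm_cast)).contDiffAt)
    have hgs : tsupport (gr φ) ⊆ tsupport φ := by
      refine closure_minimal (fun x hx => ?_) (isClosed_tsupport φ)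
      by_contra hn
      refine hx ?_
      have h0 : φ =ᶠ[𝓝 x] fun _ => 0 := by
        filter_upwards [(isClosed_tsupport φ).isOpen_compl.mem_nhds hn] with z hz
        exact image_eq_zero_of_notMem_tsupport hz
      unfold gr gradient
      rw [h0.fderiv_eq]
      simp
    have hgc : HasCompactSupport (gr φ) := hφc.of_isClosed_subset (isClosed_tsupport _) hgs
    have hgsm : ContDiff ℝ ∞ (gr φ) := contDiff_gr hφ
    have hfin : IsFiniteMeasure ((volume : Measure E).restrict Ω) := ⟨by simpa using hΩb.measure_lt_top⟩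
    have hgL : MemLp (gr φ) 2 (volume.restrict Ω) := by
      obtain ⟨C, hC⟩ := hgc.exists_bound_of_continuous hgsm.continuous
      exact MemLp.of_bound hgsm.continuous.aestronglyMeasurable C (ae_of_all _ hC)
    have hφL : MemLp φ 2 (volume.restrict Ω) := by
      obtain ⟨C, hC⟩ := hφc.exists_bound_of_continuous hφ.continuous
      exact MemLp.of_bound hφ.continuous.aestronglyMeasurable C (ae_of_all _ hC)
    have h1 : JX Ω (gr φ) h = 0 := hX (gr φ) hgsm hgc (hgs.trans hφt)
    have h2 : ∫ x in Ω, ⟪gr h x, gr φ x⟫ = 0 :=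
      hW.weak φ (tsupport φ) hφ.contDiffOn hφL hgL hφc (hφt.trans hb)
        (fun x hx => image_eq_zero_of_notMem_tsupport hx.2)
    have hdc : Continuous (dv (gr φ)) := Pool.Agent.H29.IC.continuous_dv (hgsm.of_le (by norm_cast))
    have hdcs : HasCompactSupport (dv (gr φ)) := Pool.Agent.H29.IC.hasCompactSupport_dv hgc
    have hdL : MemLp (dv (gr φ)) 2 (volume.restrict Ω) := by
      obtain ⟨C, hC⟩ := hdcs.exists_bound_of_continuous hdc
      exact MemLp.of_bound hdc.aestronglyMeasurable C (ae_of_all _ hC)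
    have i1 : Integrable (fun x => h x * dv (gr φ) x) (volume.restrict Ω) := hW.l2.integrable_mul hdL
    have i2 : Integrable (fun x => ⟪gr h x, gr φ x⟫) (volume.restrict Ω) := by
      have hA : Integrable (fun x => ‖gr h x‖ ^ 2) (volume.restrict Ω) :=
        (memLp_two_iff_integrable_sq_norm hW.g2.1).1 hW.g2
      have hB : Integrable (fun x => ‖gr φ x‖ ^ 2) (volume.restrict Ω) :=
        (memLp_two_iff_integrable_sq_norm hgL.1).1 hgL
      refine ((hA.add hB).div_const 2).mono' (hW.g2.1.inner hgL.1) (Eventually.of_forall fun x => ?_)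
      have h1 := norm_inner_le_norm (𝕜 := ℝ) (gr h x) (gr φ x)
      simp only [Pi.add_apply]
      nlinarith [sq_nonneg (‖gr h x‖ - ‖gr φ x‖)]
    unfold JX at h1
    rw [integral_add i1 i2, h2, add_zero] at h1
    have h3 : ∫ x in ball p r, h x * dv (gr φ) x = 0 := by
      rw [← h1]
      have hz : ∀ x ∉ ball p r, h x * dv (gr φ) x = 0 := by
        intro x hx
        rw [Pool.Agent.H29.IC.dv_eq_zero_of_notMem (fun hh => hx (hφt (hgs hh))), mul_zero]
      rw [setIntegral_eq_integral_of_forall_compl_eq_zero hz]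
      exact (setIntegral_eq_integral_of_forall_compl_eq_zero (fun x hx => hz x fun hh => hx (hb hh))).symm
    simpa only [hlap] using h3
  obtain ⟨U, hU, hUe⟩ := hWYL (ball p r) h isOpen_ball hl2 key
  refine ⟨U, hU, ?_⟩
  have hO : IsOpen (ball p r \ S) := isOpen_ball.sdiff hSc
  have he : h =ᵐ[volume.restrict (ball p r \ S)] U :=
    ae_mono (Measure.restrict_mono sdiff_subset le_rfl) hUe
  have hc1 : ContinuousOn h (ball p r \ S) :=
    hW.harm.1.continuousOn.mono (sdiff_subset_sdiff_left hb)
  have hc2 : ContinuousOn U (ball p r \ S) := hU.1.continuousOn.mono sdiff_subset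
  intro x hx hxS
  exact Measure.eqOn_open_of_ae_eq he hO hc1 hc2 ⟨hx, hxS⟩

end Pool.Agent.H94.AC
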